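import Pool.Agent.Helper34.FB.Goals

set_option autoImplicit false

namespace Pool.Agent.Helper2.FB

open IsLocalRing Pool.Agent.Helper26.DA Pool.Agent.Helper34.FB

universe u v w x y

section
variable {A : Type u} {B : Type v} [CommRing A] [CommRing B] [Algebra A B] {p : ℕ}
  (H : HA.{u, v, w} A B p)

lemma null_add {f g : H.M →ₗ[A] H.M} (hf : NullH H f) (hg : NullH H g) : NullH H (f + g) := by
  obtain ⟨η, h1, h2⟩ := hf
  obtain ⟨θ, h3, h4⟩ := hg
  refine ⟨η + θ, fun i z => ?_, fun z => ?_⟩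
  · simp [h1, h3]
  · simp only [LinearMap.add_apply, h2, h4, map_add]; abel

lemma null_neg {f : H.M →ₗ[A] H.M} (hf : NullH H f) : NullH H (-f) := by
  obtain ⟨η, h1, h2⟩ := hf
  refine ⟨-η, fun i z => ?_, fun z => ?_⟩
  · simp [h1]
  · simp only [LinearMap.neg_apply, h2, map_neg]; abel

lemma null_zero : NullH H (0 : H.M →ₗ[A] H.M) :=
  ⟨0, fun i z => by simp, fun z => by simp⟩

lemma null_smul (a : A) {f : H.M →ₗ[A] H.M} (hf : NullH H f) : NullH H (a • f) := by
  obtain ⟨η, h1, h2⟩ := hf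
  refine ⟨a • η, fun i z => ?_, fun z => ?_⟩
  · simp [h1]
  · simp only [LinearMap.smul_apply, h2, map_smul, smul_add]

lemma null_left (b : B) {f : H.M →ₗ[A] H.M} (hf : NullH H f) : NullH H (H.ρ b ∘ₗ f) := by
  obtain ⟨η, h1, h2⟩ := hf
  refine ⟨H.ρ b ∘ₗ η, fun i z => ?_, fun z => ?_⟩
  · simp [h1, H.ρ_pr]
  · simp only [LinearMap.comp_apply, h2, map_add, H.ρ_d]

lemma null_right (b : B) {f : H.M →ₗ[A] H.M} (hf : NullH H f) : NullH H (f ∘ₗ H.ρ b) := by
  obtain ⟨η, h1, h2⟩ := hf
  refine ⟨η ∘ₗ H.ρ b, fun i z => ?_, fun z => ?_⟩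
  · simp [h1, H.ρ_pr]
  · simp only [LinearMap.comp_apply, h2, H.ρ_d]

lemma null_of_eq {f g : H.M →ₗ[A] H.M} (h : f = g) (hf : NullH H f) : NullH H g := h ▸ hf

/-- the submodule of null homotopic maps -/
def NN : Submodule A (H.M →ₗ[A] H.M) where
  carrier := {f | NullH H f}
  add_mem' := fun hf hg => null_add H hf hg
  zero_mem' := null_zero H
  smul_mem' := fun a _ hf => null_smul H a hf

lemma ho_one : NullH H (H.ρ 1 - LinearMap.id) := by
  obtain ⟨η, h1, h2⟩ := H.one
  exact ⟨η, h1, fun z => by simp [← h2 z]⟩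

lemma ho_add (b c : B) : NullH H (H.ρ (b + c) - (H.ρ b + H.ρ c)) := by
  obtain ⟨η, h1, h2⟩ := H.add b c
  exact ⟨η, h1, fun z => by simp [← h2 z]⟩

lemma ho_mul (b c : B) : NullH H (H.ρ (b * c) - H.ρ b ∘ₗ H.ρ c) := by
  obtain ⟨η, h1, h2⟩ := H.mul b c
  exact ⟨η, h1, fun z => by simp [← h2 z]⟩

lemma ho_alg (a : A) : NullH H (H.ρ (algebraMap A B a) - a • LinearMap.id) := by
  obtain ⟨η, h1, h2⟩ := H.alg a
  exact ⟨η, h1, fun z => by simp [← h2 z]⟩

lemma ho_zero : NullH H (H.ρ 0) := by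
  refine null_of_eq H ?_ (null_neg H (ho_add H 0 0))
  rw [add_zero]; abel

/-- the ideal of elements which act by null homotopic maps -/
def bb : Ideal B where
  carrier := {c | NullH H (H.ρ c)}
  add_mem' := by
    intro b c hb hc
    refine null_of_eq H ?_ (null_add H (ho_add H b c) (null_add H hb hc))
    abel
  zero_mem' := ho_zero H
  smul_mem' := by
    intro c x hx
    refine null_of_eq H ?_ (null_add H (ho_mul H c x) (null_left H c hx))
    simp [smul_eq_mul]

lemma mem_bb (c : B) : c ∈ bb H ↔ NullH H (H.ρ c) := Iff.rfl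

lemma ho_congr {c c' : B} (h : c - c' ∈ bb H) : NullH H (H.ρ c - H.ρ c') := by
  have h1 := ho_add H (c - c') c'
  rw [sub_add_cancel] at h1
  refine null_of_eq H ?_ (null_add H h1 h)
  abel

lemma ho_smul (a : A) (c : B) : NullH H (H.ρ (a • c) - a • H.ρ c) := by
  have h1 := ho_mul H (algebraMap A B a) c
  rw [← Algebra.smul_def] at h1
  have h2 := null_right H c (ho_alg H a)
  refine null_of_eq H ?_ (null_add H h1 h2)
  ext z
  simp

/-- the action as a linear map -/
def act : B →ₗ[A] ((H.M →ₗ[A] H.M) ⧸ NN H) where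
  toFun c := (NN H).mkQ (H.ρ c)
  map_add' b c := by
    rw [← map_add, ← sub_eq_zero, ← map_sub, Submodule.mkQ_apply, Submodule.Quotient.mk_eq_zero]
    exact ho_add H b c
  map_smul' a c := by
    rw [RingHom.id_apply, ← map_smul, ← sub_eq_zero, ← map_sub, Submodule.mkQ_apply,
      Submodule.Quotient.mk_eq_zero]
    exact ho_smul H a c

lemma act_eq_zero (c : B) : act H c = 0 ↔ c ∈ bb H := by
  change (NN H).mkQ (H.ρ c) = 0 ↔ _
  rw [Submodule.mkQ_apply, Submodule.Quotient.mk_eq_zero]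
  exact Iff.rfl

lemma gens [IsNoetherianRing A] : ∃ C : Set B, C.Finite ∧ ∀ c : B, ∃ c' ∈ Submodule.span A C,
    c - c' ∈ bb H := by
  have hfin : (LinearMap.range (act H)).FG := IsNoetherian.noetherian _
  obtain ⟨T, hT⟩ := hfin
  have hsub : (T : Set _) ⊆ Set.range (act H) := by
    intro t ht
    have : t ∈ LinearMap.range (act H) := by rw [← hT]; exact Submodule.subset_span ht
    exact this
  obtain ⟨C, hC1, hC2⟩ : ∃ C : Set B, C.Finite ∧ act H '' C = (T : Set _) := by
    obtain ⟨C, -, hC⟩ := Set.subset_image_iff.1 (by rw [Set.image_univ]; exact hsub :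
      (T : Set _) ⊆ act H '' Set.univ)
    classical
    obtain ⟨C', hC', hinj⟩ := Set.exists_subset_bijOn C (act H)
    refine ⟨C', ?_, ?_⟩
    · refine Set.Finite.of_finite_image ?_ hinj.injOn
      rw [hinj.image_eq, hC]; exact T.finite_toSet
    · rw [hinj.image_eq, hC]
  refine ⟨C, hC1, fun c => ?_⟩
  have h1 : act H c ∈ Submodule.span A (act H '' C) := by
    rw [hC2, hT]; exact ⟨c, rfl⟩
  rw [Submodule.span_image] at h1
  obtain ⟨c', hc', he⟩ := h1
  refine ⟨c', hc', ?_⟩
  rw [← act_eq_zero, map_sub, he, sub_self]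

lemma kills {N : Type x} [AddCommGroup N] [Module A N] [Module B N] {π : H.M →ₗ[A] N}
    (hπ : IsH0 H π) {c : B} (hc : c ∈ bb H) (n : N) : c • n = 0 := by
  obtain ⟨h1, h2, h3, h4⟩ := hπ
  obtain ⟨z, rfl⟩ := h2 n
  rw [← h1, H.ρ_pr, h3]
  obtain ⟨η, e1, e2⟩ := hc
  refine ⟨η z, ?_⟩
  rw [← H.ρ_pr, e2, H.d_zero, map_zero, add_zero, e1]

end

theorem finite_quot {A : Type u} {B : Type v} [CommRing A] [IsNoetherianRing A] [CommRing B]
    [Algebra A B] [IsLocalRing B] [IsNoetherianRing B] {p : ℕ} (H : HA.{u, v, w} A B p)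
    (hle : bb H ≤ maximalIdeal B) : Module.Finite A (B ⧸ (maximalIdeal B * bb H)) := by
  classical
  obtain ⟨C, hC, hCs⟩ := gens H
  obtain ⟨G, hG⟩ : (bb H).FG := IsNoetherian.noetherian _
  set I := maximalIdeal B * bb H with hI
  set D : Set B := C ∪ Set.image2 (fun c g => c * g) C (G : Set B) with hD
  have hDfin : D.Finite := hC.union (Set.Finite.image2 _ hC G.finite_toSet)
  have hmul : ∀ g ∈ G, ∀ c' ∈ Submodule.span A C, c' * g ∈ Submodule.span A D := by
    intro g hg c' hc'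
    refine Submodule.span_induction (p := fun c _ => c * g ∈ Submodule.span A D) ?_ ?_ ?_ ?_ hc'
    · intro c hc
      exact Submodule.subset_span (Or.inr ⟨c, hc, g, hg, rfl⟩)
    · simp
    · intro c d _ _ h1 h2
      rw [add_mul]; exact Submodule.add_mem _ h1 h2
    · intro a c _ h1
      rw [smul_mul_assoc]; exact Submodule.smul_mem _ _ h1
  have hGb : ∀ g ∈ G, g ∈ bb H := fun g hg => by rw [← hG]; exact Submodule.subset_span hg
  -- elements of `bb`
  have hb : ∀ β ∈ bb H, ∃ c' ∈ Submodule.span A D, β - c' ∈ I := by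
    intro β hβ
    rw [← hG, Submodule.mem_span_finset] at hβ
    obtain ⟨f, -, rfl⟩ := hβ
    choose k hk1 hk2 using hCs
    refine ⟨∑ g ∈ G, k (f g) * g, Submodule.sum_mem _ (fun g hg => hmul g hg _ (hk1 _)), ?_⟩
    rw [← Finset.sum_sub_distrib]
    refine Ideal.sum_mem _ (fun g hg => ?_)
    have : f g • g - k (f g) * g = (f g - k (f g)) * g := by rw [smul_eq_mul]; ring
    rw [this]
    exact Ideal.mul_mem_mul (hle (hk2 _)) (hGb g hg)
  have hall : ∀ c : B, ∃ c' ∈ Submodule.span A D, c - c' ∈ I := by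
    intro c
    obtain ⟨c', hc', he⟩ := hCs c
    obtain ⟨c'', hc'', he'⟩ := hb _ he
    refine ⟨c' + c'', Submodule.add_mem _ (Submodule.span_mono Set.subset_union_left hc') hc'', ?_⟩
    have : c - (c' + c'') = c - c' - c'' := by ring
    rw [this]; exact he'
  constructor
  have h1 : Submodule.map (Ideal.Quotient.mkₐ A I).toLinearMap (Submodule.span A D) = ⊤ := by
    rw [eq_top_iff]
    intro t _
    obtain ⟨c, rfl⟩ := Ideal.Quotient.mk_surjective t
    obtain ⟨c', hc', he⟩ := hall c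
    refine ⟨c', hc', ?_⟩
    exact ((Ideal.Quotient.eq).2 he).symm
  rw [← h1]
  exact (Submodule.fg_span hDfin).map _

theorem gFINB : G_FINB.{u, v, w, x, y} := by
  intro hFF A _ _ _ B _ _ _ _ p H N _ _ _ _ _ πN hπ s0 b hb hdim R _ _ _ _ _ t1 t2 ht hnp q hq
  have hne : bb H ≠ ⊤ := by
    intro h
    obtain ⟨n, hn⟩ := exists_ne (0 : N)
    have := kills H hπ (c := 1) (by rw [h]; trivial) n
    rw [one_smul] at this
    exact hn this
  have hle : bb H ≤ maximalIdeal B := IsLocalRing.le_maximalIdeal hne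
  set I : Ideal B := maximalIdeal B * bb H with hI
  have hIb : I ≤ bb H := Ideal.mul_le_right
  have hfin : Module.Finite A (B ⧸ I) := finite_quot H hle
  have hInt : I ≠ ⊤ := fun h => hne (top_le_iff.1 (h ▸ hIb))
  haveI : Nontrivial (B ⧸ I) := Ideal.Quotient.nontrivial_iff.2 hInt
  haveI : IsLocalRing (B ⧸ I) := IsLocalRing.of_surjective' _ Ideal.Quotient.mk_surjective
  -- the lift
  let l : B ⧸ I → B := Function.surjInv Ideal.Quotient.mk_surjective
  have hl : ∀ t, Ideal.Quotient.mk I (l t) = t := Function.surjInv_eq Ideal.Quotient.mk_surjective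
  have hcong : ∀ (t : B ⧸ I) (c : B), Ideal.Quotient.mk I c = t →
      NullH H (H.ρ (l t) - H.ρ c) := by
    intro t c hc
    refine ho_congr H (hIb ?_)
    rw [← Ideal.Quotient.eq, hl, hc]
  let H1 : HA.{u, v, w} A (B ⧸ I) p :=
    { M := H.M
      pr := H.pr
      pr_pr := H.pr_pr
      pr_ne := H.pr_ne
      pr_top := H.pr_top
      pr_sum := H.pr_sum
      d := H.d
      dd := H.dd
      d_pr := H.d_pr
      d_zero := H.d_zero
      ρ := fun t => H.ρ (l t)
      ρ_pr := fun t i z => H.ρ_pr _ i z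
      ρ_d := fun t z => H.ρ_d _ z
      one := by
        obtain ⟨η, e1, e2⟩ : NullH H (H.ρ (l 1) - LinearMap.id) := by
          refine null_of_eq H ?_ (null_add H (hcong 1 1 (map_one _)) (ho_one H))
          abel
        exact ⟨η, e1, fun z => by rw [← e2]; rfl⟩
      add := by
        intro s t
        obtain ⟨η, e1, e2⟩ : NullH H (H.ρ (l (s + t)) - (H.ρ (l s) + H.ρ (l t))) := by
          refine null_of_eq H ?_ (null_add H (hcong (s + t) (l s + l t)
            (by rw [map_add, hl, hl])) (ho_add H (l s) (l t)))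
          abel
        exact ⟨η, e1, fun z => by rw [← e2]; rfl⟩
      mul := by
        intro s t
        obtain ⟨η, e1, e2⟩ : NullH H (H.ρ (l (s * t)) - H.ρ (l s) ∘ₗ H.ρ (l t)) := by
          refine null_of_eq H ?_ (null_add H (hcong (s * t) (l s * l t)
            (by rw [map_mul, hl, hl])) (ho_mul H (l s) (l t)))
          abel
        exact ⟨η, e1, fun z => by rw [← e2]; rfl⟩
      alg := by
        intro a
        obtain ⟨η, e1, e2⟩ : NullH H (H.ρ (l (algebraMap A (B ⧸ I) a)) - a • LinearMap.id) := by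
          refine null_of_eq H ?_ (null_add H (hcong (algebraMap A (B ⧸ I) a) (algebraMap A B a)
            rfl) (ho_alg H a))
          abel
        exact ⟨η, e1, fun z => by rw [← e2]; rfl⟩ }
  -- `N` as a module over the quotient
  have htors : Module.IsTorsionBySet B N (I : Set B) := fun n c => kills H hπ (hIb c.2) n
  letI : Module (B ⧸ I) N := htors.module
  have hsm : ∀ (c : B) (n : N), (Ideal.Quotient.mk I c) • n = c • n := fun c n =>
    Module.IsTorsionBySet.mk_smul htors c n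
  haveI : IsScalarTower A (B ⧸ I) N := by
    constructor
    intro a t n
    obtain ⟨c, rfl⟩ := Ideal.Quotient.mk_surjective t
    have : a • (Ideal.Quotient.mk I c) = Ideal.Quotient.mk I (a • c) := rfl
    rw [this, hsm, hsm, smul_assoc]
  have hπ1 : IsH0 H1 (N := N) (show H1.M →ₗ[A] N from πN) := by
    obtain ⟨e1, e2, e3, e4⟩ := hπ
    refine ⟨fun t z => ?_, e2, e3, e4⟩
    change πN (H.ρ (l t) (H.pr 0 z)) = t • πN (H.pr 0 z)
    rw [e1, ← hsm, hl]
  -- the surjection
  have hblk : blk B b ≤ (blk (B ⧸ I) b).comap (Ideal.Quotient.mk I) := by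
    unfold blk
    rw [Ideal.span_le]
    rintro _ ⟨i, rfl⟩
    exact Ideal.subset_span ⟨i, rfl⟩
  let q1 : R →+* (B ⧸ I) ⧸ blk (B ⧸ I) b :=
    (Ideal.quotientMap (blk (B ⧸ I) b) (Ideal.Quotient.mk I) hblk).comp q
  have hq1 : Function.Surjective q1 :=
    (Ideal.quotientMap_surjective (J := blk B b) (I := blk (B ⧸ I) b) (f := Ideal.Quotient.mk I)
      (H := hblk) Ideal.Quotient.mk_surjective).comp hq
  have hfree : Module.Free (B ⧸ I) N :=
    hFF A (B ⧸ I) p H1 N πN hπ1 s0 b hb hdim R t1 t2 ht hnp q1 hq1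
  -- `bb H` kills `N`, hence `bb H ≤ I`
  have hbI : bb H ≤ I := by
    intro c hc
    rw [← Ideal.Quotient.eq_zero_iff_mem]
    by_contra hne'
    have bs := Module.Free.chooseBasis (B ⧸ I) N
    have hidx : Nonempty (Module.Free.ChooseBasisIndex (B ⧸ I) N) := by
      by_contra hemp
      rw [not_nonempty_iff] at hemp
      have : Subsingleton N := bs.repr.toEquiv.subsingleton
      exact not_subsingleton N this
    obtain ⟨i⟩ := hidx
    have h1 : (Ideal.Quotient.mk I c) • bs i = 0 := by rw [hsm]; exact kills H hπ hc _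
    have h2 : bs.repr ((Ideal.Quotient.mk I c) • bs i) i = 0 := by rw [h1, map_zero]; rfl
    rw [map_smul, Finsupp.smul_apply, Module.Basis.repr_self, Finsupp.single_eq_same, smul_eq_mul,
      mul_one] at h2
    exact hne' h2
  have hbot : bb H = ⊥ := by
    refine Submodule.eq_bot_of_le_smul_of_le_jacobson_bot (maximalIdeal B) (bb H)
      (IsNoetherian.noetherian _) ?_ ?_
    · rw [smul_eq_mul]; exact hbI
    · exact (IsLocalRing.jacobson_eq_maximalIdeal ⊥ bot_ne_top).ge
  have hIbot : I = ⊥ := by rw [hI, hbot, Ideal.mul_bot]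
  have hbij : Function.Bijective (Ideal.Quotient.mk I) := by
    refine ⟨?_, Ideal.Quotient.mk_surjective⟩
    rw [RingHom.injective_iff_ker_eq_bot, Ideal.mk_ker, hIbot]
  let f : B ≃+* (B ⧸ I) := RingEquiv.ofBijective _ hbij
  have bs := Module.Free.chooseBasis (B ⧸ I) N
  refine Module.Free.of_basis (bs.mapCoeffs f.symm ?_)
  intro t n
  obtain ⟨c, rfl⟩ := f.surjective t
  rw [RingEquiv.symm_apply_apply]
  exact (hsm c n).symm

end Pool.Agent.Helper2.FB
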